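import Mathlib
import Pool.Agent.Helper42.Asum.Defs
import Pool.Agent.MN.XFinal

/-!
MP_96963f_co: the order of magnitude of `M n`, the least `m` such that every `m`-asummable
switching function on `n` variables is weighted threshold.
All definitions (`IsSwitching`, `IsWeighted`, `KSummable`, `Asummable`, `Certifies`, `M`) are in
`Pool.Agent.Helper42.Asum.Defs`.
-/

namespace Pool.Agent.Results.MP_96963f_co.RootAsymptotics

open Filter Topology Pool.Agent.Helper42.Asum

/-- `M n = n ^ (n / 2) * 2 ^ (- n + o(n))`: for every `ε > 0` and all large `n`,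
`(1/2) n log₂ n - (1 + ε) n ≤ log₂ (M n) ≤ (1/2) n log₂ n - n + 9 log₂ n`;
equivalently (up to the form of the error term) `(M n) ^ (1 / n) / √n` tends to `1 / 2`. -/
theorem result :
    (∀ n : ℕ, Certifies n (M n)) ∧
    (∀ ε : ℝ, 0 < ε → ∀ᶠ n : ℕ in atTop,
      (1/2 : ℝ) * n * Real.logb 2 n - (1 + ε) * n ≤ Real.logb 2 (M n) ∧
      Real.logb 2 (M n) ≤ (1/2 : ℝ) * n * Real.logb 2 n - n + 9 * Real.logb 2 n) ∧
    Tendsto (fun n : ℕ => (M n : ℝ) ^ (1 / (n : ℝ)) / Real.sqrt n) atTop (𝓝 (1 / 2)) :=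
  ⟨certifies_M, MN.M_exact, MN.M_root⟩

end Pool.Agent.Results.MP_96963f_co.RootAsymptotics
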